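import Pool.Agent.Helper22.TW.Stmts

set_option autoImplicit false

namespace Pool.Agent.Helper22.TW

open Pool.Agent.Helper14.BSC Polynomial

section

variable {F k Ω : Type} [Field F] [Field k] [Field Ω] [Algebra F k] [Algebra F Ω] [Algebra k Ω]
  [IsScalarTower F k Ω]

/-- images of elements of `k = F(t)` are in every intermediate field containing `t` -/
theorem bc_mem (t : k) (ht : IntermediateField.adjoin F {t} = ⊤) (K : IntermediateField F Ω)
    (hK : algebraMap k Ω t ∈ K) (c : k) : algebraMap k Ω c ∈ K := by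
  have h1 : IntermediateField.adjoin F {t} ≤ K.comap (IsScalarTower.toAlgHom F k Ω) := by
    rw [IntermediateField.adjoin_le_iff]
    intro x hx
    rw [Set.mem_singleton_iff] at hx
    rw [hx]
    exact hK
  rw [ht] at h1
  exact h1 (IntermediateField.mem_top (x := c))

theorem bc_alg (t : k) (S : Set Ω) (hS : ∀ a ∈ S, IsAlgebraic F a) (x : Ω)
    (hx : x ∈ IntermediateField.adjoin (IntermediateField.adjoin F S) {algebraMap k Ω t}) :
    IsAlgebraic k x := by
  have hF : ∀ a : Ω, IsAlgebraic F a → a ∈ Acl k Ω := by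
    intro a ha
    rw [mem_algebraicClosure_iff]
    exact ha.tower_top k
  have h1 : ∀ a ∈ IntermediateField.adjoin F S, a ∈ Acl k Ω := by
    intro a ha
    have h2 : IntermediateField.adjoin F S ≤ (Acl k Ω).restrictScalars F := by
      rw [IntermediateField.adjoin_le_iff]
      intro b hb
      exact hF b (hS b hb)
    exact h2 ha
  have h3 : x ∈ Acl k Ω := by
    induction hx using IntermediateField.adjoin_induction with
    | mem y hy =>
      rw [Set.mem_singleton_iff] at hy
      rw [hy]
      exact algebraMap_mem _ t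
    | algebraMap y => exact h1 _ y.2
    | add y z _ _ hy hz => exact add_mem hy hz
    | inv y _ hy => exact inv_mem hy
    | mul y z _ _ hy hz => exact mul_mem hy hz
  rwa [mem_algebraicClosure_iff] at h3

end

section

variable {k k' Ω : Type} [Field k] [Field k'] [Field Ω] [Algebra k Ω] [Algebra k' Ω]
  (j : k →+* k') (hj : ∀ c, algebraMap k' Ω (j c) = algebraMap k Ω c)
  (halg : ∀ c : k', IsAlgebraic k (algebraMap k' Ω c))

include hj halg in
theorem bc_acl (x : Ω) : x ∈ Acl k' Ω ↔ x ∈ Acl k Ω := by
  let _ : Algebra k k' := j.toAlgebra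
  have _ : IsScalarTower k k' Ω := IsScalarTower.of_algebraMap_eq (fun c => (hj c).symm)
  have _ : Algebra.IsAlgebraic k k' := ⟨fun c =>
    (isAlgebraic_algebraMap_iff (algebraMap k' Ω).injective).1 (halg c)⟩
  rw [mem_algebraicClosure_iff, mem_algebraicClosure_iff]
  constructor
  · intro h
    exact h.restrictScalars k
  · intro h
    exact h.tower_top k'

/-- the identity `Acl k' Ω ≃ Acl k Ω` -/
def bcE : Acl k' Ω ≃+* Acl k Ω where
  toFun x := ⟨(x : Ω), (bc_acl j hj halg _).1 x.2⟩
  invFun x := ⟨(x : Ω), (bc_acl j hj halg _).2 x.2⟩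
  left_inv _ := rfl
  right_inv _ := rfl
  map_mul' _ _ := rfl
  map_add' _ _ := rfl

theorem bcE_coe (x : Acl k' Ω) : ((bcE j hj halg x : Acl k Ω) : Ω) = (x : Ω) := rfl

theorem bcE_symm_coe (x : Acl k Ω) : (((bcE j hj halg).symm x : Acl k' Ω) : Ω) = (x : Ω) := rfl

theorem bcE_symm_algebraMap (c : k) : (bcE j hj halg).symm (algebraMap k (Acl k Ω) c) =
    algebraMap k' (Acl k' Ω) (j c) := by
  apply Subtype.ext
  rw [bcE_symm_coe]
  exact (hj c).symm

/-- transport of Galois elements -/
def bcG : GG k' Ω →* GG k Ω where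
  toFun g := AlgEquiv.ofRingEquiv
    (f := ((bcE j hj halg).symm.trans (g : Acl k' Ω ≃+* Acl k' Ω)).trans (bcE j hj halg)) (by
      intro c
      simp only [RingEquiv.trans_apply]
      rw [bcE_symm_algebraMap]
      have h1 : (g : Acl k' Ω ≃+* Acl k' Ω) (algebraMap k' (Acl k' Ω) (j c)) =
          algebraMap k' (Acl k' Ω) (j c) := g.commutes (j c)
      rw [h1]
      apply Subtype.ext
      exact hj c)
  map_one' := by
    ext x
    rfl
  map_mul' g h := by
    ext x
    rfl

theorem bcG_apply (g : GG k' Ω) (x : Acl k Ω) :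
    bcG j hj halg g x = bcE j hj halg (g ((bcE j hj halg).symm x)) := rfl

theorem bcG_coe (g : GG k' Ω) (x : Acl k Ω) :
    ((bcG j hj halg g x : Acl k Ω) : Ω) = ((g ((bcE j hj halg).symm x) : Acl k' Ω) : Ω) := rfl

/-- transport of the section -/
def bcS (D : Sec k Ω) : GG k' Ω →* (Ω ≃ₐ[k'] Ω) where
  toFun g := AlgEquiv.ofRingEquiv (f := (D.s (bcG j hj halg g) : Ω ≃+* Ω)) (by
    intro c
    have h1 := D.ext (bcG j hj halg g) (bcE j hj halg (algebraMap k' (Acl k' Ω) c))
    rw [bcG_coe, RingEquiv.symm_apply_apply, g.commutes] at h1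
    exact h1)
  map_one' := by
    ext x
    change D.s (bcG j hj halg 1) x = x
    rw [map_one, map_one]
    rfl
  map_mul' g h := by
    ext x
    change D.s (bcG j hj halg (g * h)) x = D.s (bcG j hj halg g) (D.s (bcG j hj halg h) x)
    rw [map_mul, map_mul]
    rfl

theorem bcS_apply (D : Sec k Ω) (g : GG k' Ω) (x : Ω) :
    bcS j hj halg D g x = D.s (bcG j hj halg g) x := rfl

/-- transport of the section -/
def bcD (D : Sec k Ω) : Sec k' Ω where
  s := bcS j hj halg D
  ext g x := by
    rw [bcS_apply]
    exact D.ext (bcG j hj halg g) (bcE j hj halg x)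
  fin x := by
    obtain ⟨E, hE⟩ := D.fin x
    refine ⟨E.map (bcE j hj halg).symm.toEquiv.toEmbedding, ?_⟩
    intro g hg
    rw [bcS_apply]
    apply hE
    intro a ha
    have h1 : g ((bcE j hj halg).symm a) = (bcE j hj halg).symm a :=
      hg _ (Finset.mem_map.2 ⟨a, ha, rfl⟩)
    rw [bcG_apply, h1, RingEquiv.apply_symm_apply]

theorem bcD_apply (D : Sec k Ω) (g : GG k' Ω) (x : Ω) :
    (bcD j hj halg D).s g x = D.s (bcG j hj halg g) x := rfl

end

theorem st_BC : ST_BC := by
  intro F k Ω _ _ _ _ _ _ _ _ _ t hgen hFG D S hS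
  classical
  have hSa : ∀ a ∈ (S : Set Ω), IsAlgebraic F a := fun a ha => hS a ha
  let F' : IntermediateField F Ω := IntermediateField.adjoin F (S : Set Ω)
  let k' : IntermediateField F' Ω := IntermediateField.adjoin F' {algebraMap k Ω t}
  have hcz : CharZero F' := charZero_of_injective_algebraMap (algebraMap F F').injective
  have hczk : CharZero k' := charZero_of_injective_algebraMap (algebraMap F' k').injective
  have hmem : ∀ c : k, algebraMap k Ω c ∈ k' := by
    intro c
    have h1 : algebraMap k Ω t ∈ k'.restrictScalars F :=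
      IntermediateField.mem_adjoin_simple_self F' (algebraMap k Ω t)
    exact bc_mem t hgen.2 (k'.restrictScalars F) h1 c
  let j : k →+* k' := (algebraMap k Ω).codRestrict k' hmem
  have hj : ∀ c, algebraMap k' Ω (j c) = algebraMap k Ω c := fun c => rfl
  have halg : ∀ c : k', IsAlgebraic k (algebraMap k' Ω c) := fun c => bc_alg t (S : Set Ω) hSa _ c.2
  have hFF : Algebra.IsAlgebraic F F' :=
    IntermediateField.isAlgebraic_adjoin (fun x hx => (hSa x hx).isIntegral)
  have htr : Transcendental F' (algebraMap k Ω t) := by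
    intro h
    have h1 : IsAlgebraic F (algebraMap k Ω t) := h.restrictScalars F
    exact hgen.1 ((isAlgebraic_algebraMap_iff (algebraMap k Ω).injective).1 h1)
  have hgen' : Gen F' k' (j t) := by
    constructor
    · intro h
      apply htr
      have h2 := (isAlgebraic_algebraMap_iff (R := F') (A := Ω) (algebraMap k' Ω).injective).2 h
      exact h2
    · apply IntermediateField.lift_injective
      rw [IntermediateField.lift_adjoin_simple, IntermediateField.lift_top]
      rfl
  have hfg' : (⊤ : IntermediateField ℚ F').FG := by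
    have e1 : Algebra.EssFiniteType ℚ F := IntermediateField.fg_top_iff.1 hFG
    have e2 : Algebra.EssFiniteType F F' := IntermediateField.essFiniteType_iff.2 ⟨S, rfl⟩
    have e3 : Algebra.EssFiniteType ℚ F' := Algebra.EssFiniteType.comp ℚ F F'
    exact IntermediateField.fg_top ℚ F'
  refine ⟨{ F' := F', k' := k', i := algebraMap F F', j := j, t' := j t, D' := bcD j hj halg D
            ht := rfl, hi := fun a => rfl, hj := hj, gen := hgen', fg := hfg'
            alg := ?_, algk := halg, fix := ?_ }, ?_, ?_⟩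
  · intro a
    exact (isAlgebraic_algebraMap_iff (algebraMap F' Ω).injective).2 (hFF.isAlgebraic a)
  · intro x hx g
    exact hx _
  · intro a ha
    exact ⟨⟨a, IntermediateField.subset_adjoin _ _ ha⟩, rfl⟩
  · intro x hx g
    change D.s (bcG j hj halg g) x = x
    apply hx
    intro a ha
    have hak : (a : Ω) ∈ k' := by
      have h1 : (a : Ω) ∈ F' := IntermediateField.subset_adjoin _ _ ha
      exact IntermediateField.algebraMap_mem k' (⟨(a : Ω), h1⟩ : F')
    have h2 : (bcE j hj halg).symm a = algebraMap k' (Acl k' Ω) ⟨(a : Ω), hak⟩ := Subtype.ext rfl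
    rw [bcG_apply, h2, g.commutes, ← h2, RingEquiv.apply_symm_apply]

end Pool.Agent.Helper22.TW
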