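import Pool.Agent.Helper22.TW.Stmts

set_option autoImplicit false

namespace Pool.Agent.Helper22.TW

open Pool.Agent.Helper14.BSC Polynomial

/-- a quotient `(x - a) / (x - b)` at a pole of `x` -/
theorem ca_one {k Ω : Type} [Field k] [Field Ω] [Algebra k Ω] {D : Sec k Ω} {p : ℕ} [Fact p.Prime]
    {σ : k →+* ℂ_[p]} (P : Place D p σ) (x : LL D) (hx : x ∉ P.C) (a b : k) :
    ∃ h : (x - algebraMap k (LL D) a) / (x - algebraMap k (LL D) b) ∈ P.C, P.φ ⟨_, h⟩ = 1 := by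
  obtain ⟨hb, _⟩ := P.base b
  obtain ⟨hba, _⟩ := P.base (b - a)
  have h1 : x - algebraMap k (LL D) b ∉ P.C := by
    intro h
    apply hx
    have h2 := P.C.add_mem _ _ h hb
    rwa [sub_add_cancel] at h2
  have h0 : x - algebraMap k (LL D) b ≠ 0 := by
    intro h
    rw [h] at h1
    exact h1 P.C.zero_mem
  have h2 : (x - algebraMap k (LL D) b)⁻¹ ∈ P.C := (P.C.mem_or_inv_mem _).resolve_left h1
  have h3 : P.φ ⟨_, h2⟩ = 0 := by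
    rw [P.ker]
    right
    change (x - algebraMap k (LL D) b)⁻¹⁻¹ ∉ P.C
    rwa [inv_inv]
  have h4 : (x - algebraMap k (LL D) a) / (x - algebraMap k (LL D) b) =
      1 + algebraMap k (LL D) (b - a) * (x - algebraMap k (LL D) b)⁻¹ := by
    rw [map_sub]
    field_simp
    ring
  have h5 : (x - algebraMap k (LL D) a) / (x - algebraMap k (LL D) b) ∈ P.C := by
    rw [h4]
    exact P.C.add_mem _ _ P.C.one_mem (P.C.mul_mem _ _ hba h2)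
  refine ⟨h5, ?_⟩
  have h6 : (⟨_, h5⟩ : P.C) = 1 + ⟨_, hba⟩ * ⟨_, h2⟩ := Subtype.ext h4
  rw [h6, map_add, map_mul, h3, mul_zero, add_zero, map_one]

theorem st_CA (hRK : ST_RK) (hPL : ST_PL) (hRPL : ST_RPL) (hEXK : ST_EXK) (hTRA : ST_TRA) :
    ST_CA := by
  intro F k Ω _ _ _ _ _ _ _ _ _ _ t hgen D B p _ ι E E₂ hE hE₂ hEE hι hιF v hv f hf ϖ hϖ hϖ0 hϖ1
    f' hf' a b n hn c g hcg m C₀ hC₀ hc
  obtain ⟨ε₁, hε₁, hf⟩ := hf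
  obtain ⟨ε₂, hε₂, hc⟩ := hc
  have hϖne : ϖ ≠ 0 := norm_pos_iff.1 hϖ0
  have key : ∀ M : ℕ, ‖ϖ‖ ^ M < ε₁ → ‖ϖ‖ ^ M < ε₂ → ∃ w ∈ E₂, w ≠ 0 ∧
      C₀ * (‖ϖ‖ ^ M) ^ m = ‖w‖ ^ n := by
    intro M hM₁ hM₂
    obtain ⟨τ, hτE, _, hτn, hτt⟩ := hTRA B.F' B.fg p ι E (ι v) (ϖ ^ M) hv (pow_mem hϖ M)
      (pow_ne_zero M hϖne) ∅ Set.countable_empty
    rw [norm_pow] at hτn
    obtain ⟨hX1, _, hX3⟩ := hEXK B.F' B.k' B.t' B.gen p E₂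
    obtain ⟨σ', hσF, hσt⟩ := hX3 ι τ hτt
    have hσE₂ : ∀ x, σ' x ∈ E₂ := hX1 σ' (fun a => by rw [hσF]; exact hι a)
      (by rw [hσt]; exact hEE hτE)
    have hσa : ∀ a : F, (σ'.comp B.j) (algebraMap F k a) = ι (B.i a) := by
      intro a
      have h1 : B.j (algebraMap F k a) = algebraMap B.F' B.k' (B.i a) := by
        apply (algebraMap B.k' Ω).injective
        rw [B.hj, ← IsScalarTower.algebraMap_apply F k Ω,
          ← IsScalarTower.algebraMap_apply B.F' B.k' Ω, B.hi]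
      rw [RingHom.comp_apply, h1, hσF]
    have hσt' : (σ'.comp B.j) t = τ := by
      rw [RingHom.comp_apply, B.ht, hσt]
    obtain ⟨hX1', _, _⟩ := hEXK F k t hgen p E
    have hσE : ∀ x, (σ'.comp B.j) x ∈ E := hX1' (σ'.comp B.j)
      (fun a => by rw [hσa]; exact hιF a) (by rw [hσt']; exact hτE)
    obtain ⟨P', _⟩ := hRK B.k' Ω B.D' p σ' E₂ hE₂ hσE₂
    obtain ⟨P, hP⟩ := hRPL k B.k' Ω B.j D B.D' B.hj B.fix p σ' P'
    have hfP : f ∉ P.C := hf (σ'.comp B.j) hσa hσE (by rw [hσt', hτn]; exact hM₁) P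
    have hfP' : f' ∉ P'.C := by
      intro h
      exact hfP ((hP f f' hf'.symm).1.2 h)
    obtain ⟨hr, hr1⟩ := ca_one P' f' hfP' a b
    obtain ⟨_, hPLk⟩ := hPL B.k' Ω B.D' p σ' E₂ hE₂ hσE₂ P'
    obtain ⟨w, hwE, hw0, hw⟩ := hPLk ⟨_, hr⟩ (by rw [hr1]; exact one_ne_zero) n hn c g hcg
    rw [hr1, one_mul] at hw
    refine ⟨w, hwE, hw0, ?_⟩
    have h2 := hc σ' hσF (by rw [hσt, hτn]; exact pow_pos hϖ0 M) (by rw [hσt, hτn]; exact hM₂)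
    rw [hσt, hτn, hw, norm_pow] at h2
    exact h2.symm
  obtain ⟨M₁, hM₁⟩ := exists_pow_lt_of_lt_one (lt_min hε₁ hε₂) hϖ1
  have hM₂ : ‖ϖ‖ ^ (M₁ + 1) < min ε₁ ε₂ := by
    refine lt_of_le_of_lt ?_ hM₁
    exact pow_le_pow_of_le_one hϖ0.le hϖ1.le (Nat.le_succ M₁)
  obtain ⟨w₁, hw₁E, hw₁0, hw₁⟩ := key M₁ (lt_of_lt_of_le hM₁ (min_le_left _ _))
    (lt_of_lt_of_le hM₁ (min_le_right _ _))
  obtain ⟨w₂, hw₂E, hw₂0, hw₂⟩ := key (M₁ + 1) (lt_of_lt_of_le hM₂ (min_le_left _ _))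
    (lt_of_lt_of_le hM₂ (min_le_right _ _))
  refine ⟨w₂ / w₁, div_mem hw₂E hw₁E, div_ne_zero hw₂0 hw₁0, ?_⟩
  rw [norm_div, div_pow, ← hw₁, ← hw₂, pow_succ, mul_zpow]
  have h3 : (‖ϖ‖ ^ M₁) ^ m ≠ 0 := zpow_ne_zero _ (pow_ne_zero _ hϖ0.ne')
  field_simp

end Pool.Agent.Helper22.TW
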